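import Mathlib

/-!
# Solvable cut groups `G` with `exp O_p(G) = p²` for `p = 5, 7`

`G` is the group of all maps `(i, y) ↦ (μ i + c, λ y + f i)` of `F_p × F_p`, with `μ, λ ≠ 0` and
`f : F_p → F_p` arbitrary.  It is solvable, and its normal `p`-subgroup `{μ = λ = 1}`, the wreath
product of `C_p` by `C_p`, has elements of order `p²`.  For `p = 5, 7` the group is cut: it is
enough to show that `x` is conjugate to `x ^ k` when `p ∤ k` and `μ ^ k = μ`, `λ ^ k = λ`.  Let
`D h = h ∘ x̄ - λ h`, where `x̄ i = μ i + c`.  If `x̄ ^ k = x̄`, then the function of `x ^ k` is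
`k f` modulo the image of `D`.  Otherwise `μ = 1`, `c ≠ 0`, and the image of `D` is everything for
`λ ≠ 1` and consists of the functions with sum zero for `λ = 1`.
-/

namespace Pool.Agent.Results.MP_725138_al.ExponentOp

/-- `G` is a cut group: each generator of `⟨x⟩` is conjugate to `x` or to `x⁻¹`. -/
def IsCut (G : Type) [Group G] : Prop :=
  ∀ x y : G, Subgroup.zpowers y = Subgroup.zpowers x → IsConj x y ∨ IsConj x⁻¹ y

/-- `O_p(G)`, the largest normal `p`-subgroup: the join of all normal `p`-subgroups. -/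
def Op (p : ℕ) (G : Type) [Group G] : Subgroup G := sSup {N | N.Normal ∧ IsPGroup p N}

/-- The group of the maps `(i, y) ↦ (μ i + c, λ y + f i)`. -/
@[ext] structure Gp (p : ℕ) where
  mu : (ZMod p)ˣ
  c : ZMod p
  la : (ZMod p)ˣ
  f : ZMod p → ZMod p

namespace Gp

variable {p : ℕ}

instance : Mul (Gp p) := ⟨fun x y => ⟨x.mu * y.mu, x.c + x.mu * y.c, x.la * y.la,
  fun i => x.la * y.f i + x.f (y.mu * i + y.c)⟩⟩
instance : One (Gp p) := ⟨⟨1, 0, 1, fun _ => 0⟩⟩
instance : Inv (Gp p) := ⟨fun x => ⟨x.mu⁻¹, - ((x.mu⁻¹ : (ZMod p)ˣ) * x.c), x.la⁻¹,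
  fun i => - ((x.la⁻¹ : (ZMod p)ˣ) * x.f ((x.mu⁻¹ : (ZMod p)ˣ) * (i - x.c)))⟩⟩

@[simp] theorem mul_mu (x y : Gp p) : (x * y).mu = x.mu * y.mu := rfl
@[simp] theorem mul_c (x y : Gp p) : (x * y).c = x.c + x.mu * y.c := rfl
@[simp] theorem mul_la (x y : Gp p) : (x * y).la = x.la * y.la := rfl
@[simp] theorem mul_f (x y : Gp p) (i : ZMod p) :
    (x * y).f i = x.la * y.f i + x.f (y.mu * i + y.c) := rfl
@[simp] theorem one_mu : (1 : Gp p).mu = 1 := rfl
@[simp] theorem one_c : (1 : Gp p).c = 0 := rfl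
@[simp] theorem one_la : (1 : Gp p).la = 1 := rfl
@[simp] theorem one_f (i : ZMod p) : (1 : Gp p).f i = 0 := rfl

instance : Group (Gp p) := Group.ofLeftAxioms
  (by
    intro x y z
    ext i
    · simp [mul_assoc]
    · simp only [mul_c, mul_mu, Units.val_mul]; ring
    · simp [mul_assoc]
    · simp only [mul_f, mul_la, mul_mu, mul_c, Units.val_mul]
      have : (y.mu : ZMod p) * z.mu * i + (y.c + y.mu * z.c) = y.mu * (z.mu * i + z.c) + y.c := by
        ring
      rw [this]
      ring)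
  (by intro x; ext i <;> simp)
  (by
    intro x
    have h1 : (((x.mu⁻¹ : (ZMod p)ˣ)) : ZMod p) * x.mu = 1 := by
      rw [← Units.val_mul, inv_mul_cancel, Units.val_one]
    ext i
    · change ((x.mu⁻¹ * x.mu : (ZMod p)ˣ) : ZMod p) = _
      simp
    · change - (((x.mu⁻¹ : (ZMod p)ˣ) : ZMod p) * x.c) + ((x.mu⁻¹ : (ZMod p)ˣ) : ZMod p) * x.c = 0
      ring
    · change ((x.la⁻¹ * x.la : (ZMod p)ˣ) : ZMod p) = _
      simp
    · change ((x.la⁻¹ : (ZMod p)ˣ) : ZMod p) * x.f i +
        - (((x.la⁻¹ : (ZMod p)ˣ) : ZMod p) * x.f ((x.mu⁻¹ : (ZMod p)ˣ) * (x.mu * i + x.c - x.c))) = 0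
      rw [add_sub_cancel_right, ← mul_assoc, h1, one_mul]
      ring)

/-- The group as a product of sets. -/
def equivProd : Gp p ≃ ((ZMod p)ˣ × ZMod p) × ((ZMod p)ˣ × (ZMod p → ZMod p)) where
  toFun x := ((x.mu, x.c), (x.la, x.f))
  invFun x := ⟨x.1.1, x.1.2, x.2.1, x.2.2⟩
  left_inv _ := rfl
  right_inv _ := rfl

instance [NeZero p] : Finite (Gp p) := Finite.of_equiv _ equivProd.symm

theorem pow_mu (x : Gp p) (n : ℕ) : (x ^ n).mu = x.mu ^ n := by
  induction n with
  | zero => simp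
  | succ n ih => rw [pow_succ, mul_mu, ih, pow_succ]

theorem pow_la (x : Gp p) (n : ℕ) : (x ^ n).la = x.la ^ n := by
  induction n with
  | zero => simp
  | succ n ih => rw [pow_succ, mul_la, ih, pow_succ]

/-- The action on the first coordinate. -/
def top (x : Gp p) (i : ZMod p) : ZMod p := x.mu * i + x.c

theorem top_pow (x : Gp p) (n : ℕ) (i : ZMod p) : (x ^ n).top i = (x.top)^[n] i := by
  induction n generalizing i with
  | zero => simp [top]
  | succ n ih =>
    rw [Function.iterate_succ_apply, ← ih, pow_succ]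
    simp only [top, mul_mu, mul_c, Units.val_mul]
    ring

theorem pow_succ_f (x : Gp p) (n : ℕ) :
    (x ^ (n + 1)).f = (x.la : ZMod p) • (x ^ n).f + fun i => x.f ((x.top)^[n] i) := by
  rw [pow_succ']
  funext i
  rw [mul_f, Pi.add_apply, ← top_pow]
  rfl

/-- The map `h ↦ h ∘ x̄ - λ h`. -/
def D (x : Gp p) : (ZMod p → ZMod p) →ₗ[ZMod p] (ZMod p → ZMod p) where
  toFun h := fun i => h (x.top i) - x.la * h i
  map_add' a b := by funext i; simp only [Pi.add_apply]; ring
  map_smul' r a := by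
    funext i
    simp only [Pi.smul_apply, smul_eq_mul, RingHom.id_apply]
    ring

theorem D_apply (x : Gp p) (h : ZMod p → ZMod p) (i : ZMod p) :
    x.D h i = h (x.top i) - x.la * h i := rfl

/-- `x` with the function replaced. -/
def w (x : Gp p) (g : ZMod p → ZMod p) : Gp p := ⟨x.mu, x.c, x.la, g⟩

theorem conj_base (x : Gp p) {g : ZMod p → ZMod p} (h : g - x.f ∈ LinearMap.range x.D) :
    IsConj x (x.w g) := by
  obtain ⟨u, hu⟩ := h
  rw [isConj_iff]
  refine ⟨⟨1, 0, 1, u⟩, ?_⟩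
  rw [mul_inv_eq_iff_eq_mul]
  ext i
  · simp [w]
  · simp [w]
  · simp [w]
  · have := congrFun hu i
    rw [D_apply, Pi.sub_apply] at this
    simp only [mul_f, w, Units.val_one, one_mul, add_zero]
    rw [show (x.mu : ZMod p) * i + x.c = x.top i from rfl]
    linear_combination this

theorem conj_scale (x : Gp p) (s : (ZMod p)ˣ) : IsConj x (x.w ((s : ZMod p) • x.f)) := by
  rw [isConj_iff]
  refine ⟨⟨1, 0, s, fun _ => 0⟩, ?_⟩
  rw [mul_inv_eq_iff_eq_mul]
  ext i
  · simp [w]
  · simp [w]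
  · simp [w, mul_comm]
  · simp [w]

theorem conj_top (x : Gp p) (s : (ZMod p)ˣ) :
    IsConj x ⟨x.mu, s * x.c, x.la, fun i => x.f ((s⁻¹ : (ZMod p)ˣ) * i)⟩ := by
  rw [isConj_iff]
  refine ⟨⟨s, 0, 1, fun _ => 0⟩, ?_⟩
  rw [mul_inv_eq_iff_eq_mul]
  ext i
  · simp [mul_comm]
  · simp
  · simp
  · simp [← mul_assoc]

/-- Base and scaling conjugations together. -/
theorem conj_of_sub (x : Gp p) {g : ZMod p → ZMod p} (s : (ZMod p)ˣ)
    (h : g - (s : ZMod p) • x.f ∈ LinearMap.range x.D) : IsConj x (x.w g) := by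
  have h1 := conj_scale x s
  have h2 := conj_base (x.w ((s : ZMod p) • x.f)) (g := g) h
  exact h1.trans h2

theorem iter_mem (x : Gp p) (g : ZMod p → ZMod p) (j : ℕ) :
    (fun i => g ((x.top)^[j] i)) - (x.la : ZMod p) ^ j • g ∈ LinearMap.range x.D := by
  induction j with
  | zero =>
    simp
  | succ j ih =>
    have e : (fun i => g ((x.top)^[j + 1] i)) - (x.la : ZMod p) ^ (j + 1) • g =
        x.D (fun i => g ((x.top)^[j] i)) +
          (x.la : ZMod p) • ((fun i => g ((x.top)^[j] i)) - (x.la : ZMod p) ^ j • g) := by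
      funext i
      simp only [Pi.sub_apply, Pi.add_apply, Pi.smul_apply, smul_eq_mul, D_apply,
        Function.iterate_succ_apply]
      ring
    rw [e]
    exact Submodule.add_mem _ ⟨_, rfl⟩ (Submodule.smul_mem _ _ ih)

theorem pow_f_mem (x : Gp p) (n : ℕ) :
    (x.la : ZMod p) • (x ^ n).f - ((n : ZMod p) * (x.la : ZMod p) ^ n) • x.f ∈
      LinearMap.range x.D := by
  induction n with
  | zero =>
    have : (x.la : ZMod p) • (x ^ 0).f - (((0 : ℕ) : ZMod p) * (x.la : ZMod p) ^ 0) • x.f = 0 := by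
      funext i
      simp
    rw [this]
    exact Submodule.zero_mem _
  | succ n ih =>
    have e : (x.la : ZMod p) • (x ^ (n + 1)).f -
          (((n + 1 : ℕ) : ZMod p) * (x.la : ZMod p) ^ (n + 1)) • x.f =
        (x.la : ZMod p) • ((x.la : ZMod p) • (x ^ n).f -
            ((n : ZMod p) * (x.la : ZMod p) ^ n) • x.f) +
          (x.la : ZMod p) • ((fun i => x.f ((x.top)^[n] i)) - (x.la : ZMod p) ^ n • x.f) := by
      rw [pow_succ_f]
      funext i
      simp only [Pi.sub_apply, Pi.add_apply, Pi.smul_apply, smul_eq_mul, Nat.cast_add,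
        Nat.cast_one]
      ring
    rw [e]
    exact Submodule.add_mem _ (Submodule.smul_mem _ _ ih)
      (Submodule.smul_mem _ _ (iter_mem x x.f n))

theorem conj_of_c (x : Gp p) (k : ℕ) (s : (ZMod p)ˣ) (hs : (s : ZMod p) = k)
    (hmu : x.mu ^ k = x.mu) (hla : x.la ^ k = x.la) (hc : (x ^ k).c = x.c) :
    IsConj x (x ^ k) := by
  have e : x ^ k = x.w (x ^ k).f := by
    ext i
    · rw [pow_mu, hmu]; rfl
    · rw [hc]; rfl
    · rw [pow_la, hla]; rfl
    · rfl
  rw [e]
  apply conj_of_sub x s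
  have h1 := pow_f_mem x k
  have h2 : (x.la : ZMod p) ^ k = x.la := by rw [← Units.val_pow_eq_pow_val, hla]
  rw [h2, ← hs] at h1
  have h3 := Submodule.smul_mem _ (((x.la⁻¹ : (ZMod p)ˣ) : ZMod p)) h1
  have h4 : ((x.la⁻¹ : (ZMod p)ˣ) : ZMod p) * x.la = 1 := by
    rw [← Units.val_mul, inv_mul_cancel, Units.val_one]
  rw [smul_sub, smul_smul, smul_smul, h4, one_smul,
    show ((x.la⁻¹ : (ZMod p)ˣ) : ZMod p) * ((s : ZMod p) * x.la) = s by
      rw [mul_comm (s : ZMod p), ← mul_assoc, h4, one_mul]] at h3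
  exact h3

theorem pow_c (x : Gp p) (n : ℕ) :
    ((x.mu : ZMod p) - 1) * (x ^ n).c = ((x.mu : ZMod p) ^ n - 1) * x.c := by
  induction n with
  | zero => simp
  | succ n ih =>
    rw [pow_succ', mul_c, mul_add, mul_left_comm, ih]
    ring

theorem pow_c_one (x : Gp p) (h : x.mu = 1) (n : ℕ) : (x ^ n).c = n * x.c := by
  induction n with
  | zero => simp
  | succ n ih =>
    rw [pow_succ', mul_c, ih, h]
    push_cast
    ring

section Prime

variable [hp : Fact p.Prime]

theorem top_one {x : Gp p} (h : x.mu = 1) (j : ℕ) (i : ZMod p) :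
    (x.top)^[j] i = i + j * x.c := by
  rw [← top_pow, top, pow_mu, h, pow_c_one x h]
  simp

/-- For `μ = 1`, `λ ≠ 1` the map `D` is onto. -/
theorem D_surj {x : Gp p} (h : x.mu = 1) (hl : x.la ≠ 1) : LinearMap.range x.D = ⊤ := by
  rw [LinearMap.range_eq_top, ← LinearMap.injective_iff_surjective, ← LinearMap.ker_eq_bot,
    LinearMap.ker_eq_bot']
  intro g hg
  have h1 : ∀ i, g (x.top i) = x.la * g i := by
    intro i
    have := congrFun hg i
    rw [D_apply] at this
    exact sub_eq_zero.1 this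
  have h2 : ∀ (j : ℕ) i, g ((x.top)^[j] i) = (x.la : ZMod p) ^ j * g i := by
    intro j
    induction j with
    | zero => simp
    | succ j ih =>
      intro i
      rw [Function.iterate_succ_apply, ih, h1]
      ring
  funext i
  have h3 := h2 p i
  rw [top_one h, ZMod.natCast_self, zero_mul, add_zero, ZMod.pow_card] at h3
  have h4 : ((x.la : ZMod p) - 1) * g i = 0 := by linear_combination -h3
  rcases mul_eq_zero.1 h4 with h5 | h5
  · exact absurd (Units.ext (sub_eq_zero.1 h5)) hl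
  · exact h5

/-- For `μ = λ = 1`, `c ≠ 0` the image of `D` contains all functions with sum zero. -/
theorem D_sum {x : Gp p} (h : x.mu = 1) (hl : x.la = 1) (hc : x.c ≠ 0) {g : ZMod p → ZMod p}
    (hg : ∑ i, g i = 0) : g ∈ LinearMap.range x.D := by
  refine ⟨fun i => ∑ l ∈ Finset.range (i * x.c⁻¹).val, g (l * x.c), ?_⟩
  funext i
  have hp2 := hp.out.two_le
  have e0 : (x.top i) * x.c⁻¹ = i * x.c⁻¹ + 1 := by
    rw [top, h]
    field_simp
    simp
  obtain ⟨v, hv⟩ : ∃ v, v = i * x.c⁻¹ := ⟨_, rfl⟩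
  have hi : i = v * x.c := by rw [hv]; field_simp
  rw [D_apply, hl, Units.val_one, one_mul, e0, ← hv]
  have hlt := ZMod.val_lt v
  rcases Nat.lt_or_ge (v.val + 1) p with hv1 | hv1
  · have e1 : (v + 1).val = v.val + 1 := by
      have hone : (1 : ZMod p).val = 1 := ZMod.val_one'' hp.out.ne_one
      rw [ZMod.val_add_of_lt (by rw [hone]; exact hv1), hone]
    rw [e1, Finset.sum_range_succ, add_sub_cancel_left, ZMod.natCast_zmod_val, hi]
  · have e1 : v.val = p - 1 := by omega
    have e2 : v + 1 = 0 := by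
      have : v = ((p - 1 : ℕ) : ZMod p) := by rw [← e1, ZMod.natCast_zmod_val]
      rw [this]
      have h3 : ((p - 1 : ℕ) : ZMod p) + 1 = ((p - 1 + 1 : ℕ) : ZMod p) := by push_cast; rfl
      rw [h3, Nat.sub_add_cancel (by omega), ZMod.natCast_self]
    rw [e2, ZMod.val_zero, Finset.sum_range_zero, zero_sub, e1]
    have e3 : ∑ l ∈ Finset.range p, g (l * x.c) = ∑ i, g i := by
      have : ∑ l ∈ Finset.range p, g (l * x.c) = ∑ i : ZMod p, g (i * x.c) := by
        refine Finset.sum_nbij' (fun j => (j : ZMod p)) (fun i => i.val) ?_ ?_ ?_ ?_ ?_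
        · intro j _; exact Finset.mem_univ _
        · intro i _; exact Finset.mem_range.2 (ZMod.val_lt i)
        · intro j hj; exact ZMod.val_cast_of_lt (Finset.mem_range.1 hj)
        · intro i _; exact ZMod.natCast_zmod_val i
        · intro j _; rfl
      rw [this]
      exact Fintype.sum_equiv (Equiv.mulRight₀ x.c hc) _ _ (fun i => rfl)
    have e4 : ∑ l ∈ Finset.range p, g (l * x.c) =
        ∑ l ∈ Finset.range (p - 1), g (l * x.c) + g ((p - 1 : ℕ) * x.c) := by
      have h6 := Finset.sum_range_succ (fun l : ℕ => g (l * x.c)) (p - 1)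
      rw [Nat.sub_add_cancel (by omega)] at h6
      exact h6
    have e5 : g i = g ((p - 1 : ℕ) * x.c) := by
      rw [hi, ← e1, ZMod.natCast_zmod_val]
    rw [e5]
    rw [e3, hg] at e4
    linear_combination e4

theorem sum_pow {x : Gp p} (h : x.mu = 1) (hl : x.la = 1) (n : ℕ) :
    ∑ i, (x ^ n).f i = n * ∑ i, x.f i := by
  induction n with
  | zero => simp
  | succ n ih =>
    rw [pow_succ']
    simp only [mul_f, hl, Units.val_one, one_mul, Finset.sum_add_distrib, ih, pow_mu, h, one_pow]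
    have : ∑ i, x.f (i + (x ^ n).c) = ∑ i, x.f i :=
      Fintype.sum_equiv (Equiv.addRight (x ^ n).c) _ _ (fun i => rfl)
    rw [this]
    push_cast
    ring

/-- The main step. -/
theorem conj_pow (x : Gp p) (k : ℕ) (hk : ¬ p ∣ k) (hmu : x.mu ^ k = x.mu)
    (hla : x.la ^ k = x.la) : IsConj x (x ^ k) := by
  have hk0 : (k : ZMod p) ≠ 0 := by rwa [Ne, ZMod.natCast_eq_zero_iff]
  obtain ⟨s, hs⟩ : ∃ s : (ZMod p)ˣ, (s : ZMod p) = k := ⟨Units.mk0 _ hk0, rfl⟩
  by_cases h : x.mu = 1
  · by_cases hc : x.c = 0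
    · refine conj_of_c x k s hs hmu hla ?_
      rw [pow_c_one x h, hc, mul_zero]
    · let y : Gp p := ⟨x.mu, s * x.c, x.la, fun i => x.f ((s⁻¹ : (ZMod p)ˣ) * i)⟩
      have h1 : IsConj x y := conj_top x s
      have e : x ^ k = y.w (x ^ k).f := by
        ext i
        · rw [pow_mu, hmu]; rfl
        · rw [pow_c_one x h, ← hs]; rfl
        · rw [pow_la, hla]; rfl
        · rfl
      refine h1.trans ?_
      rw [e]
      refine conj_of_sub y s ?_
      by_cases hl : x.la = 1
      · refine D_sum (x := y) h hl ?_ ?_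
        · change (s : ZMod p) * x.c ≠ 0
          rw [hs]
          exact mul_ne_zero hk0 hc
        · simp only [Pi.sub_apply, Pi.smul_apply, smul_eq_mul, Finset.sum_sub_distrib]
          rw [sum_pow h hl, ← Finset.mul_sum, hs]
          have : ∑ i, y.f i = ∑ i, x.f i :=
            Fintype.sum_equiv (Units.mulLeft s⁻¹) _ _ (fun i => rfl)
          rw [this, sub_self]
      · rw [D_surj (x := y) h hl]
        trivial
  · refine conj_of_c x k s hs hmu hla ?_
    have h1 := pow_c x k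
    have h2 : (x.mu : ZMod p) ^ k = x.mu := by rw [← Units.val_pow_eq_pow_val, hmu]
    rw [h2] at h1
    have h3 : (x.mu : ZMod p) - 1 ≠ 0 := by
      rw [sub_ne_zero]
      intro h'
      exact h (Units.ext h')
    exact mul_left_cancel₀ h3 h1

theorem pow_eq_of_mod {u : (ZMod p)ˣ} {k : ℕ} (h : k % (p - 1) = 1 % (p - 1)) : u ^ k = u := by
  have h1 : u ^ (p - 1) = 1 := ZMod.units_pow_card_sub_one_eq_one p u
  have h2 : u ^ k = u ^ 1 := pow_eq_pow_of_modEq h h1
  rw [h2, pow_one]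

omit hp in
theorem mod_four {m : ℕ} (h : m.Coprime 4) : m % 4 = 1 % 4 ∨ m % 4 * 3 % 4 = 1 % 4 := by
  have h4 : m % 4 < 4 := Nat.mod_lt _ (by norm_num)
  have h5 : Nat.gcd (m % 4) 4 = 1 := by
    rw [← Nat.gcd_rec, Nat.gcd_comm]
    exact h
  generalize m % 4 = t at h4 h5
  interval_cases t
  · norm_num at h5
  · left; rfl
  · norm_num at h5
  · right; rfl

omit hp in
theorem mod_six {m : ℕ} (h : m.Coprime 6) : m % 6 = 1 % 6 ∨ m % 6 * 5 % 6 = 1 % 6 := by
  have h4 : m % 6 < 6 := Nat.mod_lt _ (by norm_num)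
  have h5 : Nat.gcd (m % 6) 6 = 1 := by
    rw [← Nat.gcd_rec, Nat.gcd_comm]
    exact h
  generalize m % 6 = t at h4 h5
  interval_cases t
  · norm_num at h5
  · left; rfl
  · norm_num at h5
  · norm_num at h5
  · norm_num at h5
  · right; rfl

theorem isCut (h57 : p = 5 ∨ p = 7) : IsCut (Gp p) := by
  intro x y hxy
  have hx0 := orderOf_pos x
  have hp0 := hp.out.pos
  have hp1 : 0 < p - 1 := by rcases h57 with rfl | rfl <;> norm_num
  have hy : y ∈ Submonoid.powers x := by
    rw [mem_powers_iff_mem_zpowers, ← hxy]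
    exact Subgroup.mem_zpowers y
  obtain ⟨k, hk⟩ := hy
  have hk : x ^ k = y := hk
  have hord : orderOf y = orderOf x := by
    rw [← Nat.card_zpowers, hxy, Nat.card_zpowers]
  have hcop : k.Coprime (orderOf x) := by
    rw [← hk, orderOf_pow] at hord
    have hg := Nat.gcd_dvd_left (orderOf x) k
    have hg2 := Nat.div_mul_cancel hg
    rw [hord] at hg2
    rw [Nat.coprime_comm]
    exact Nat.eq_of_mul_eq_mul_left hx0 (by rw [hg2, mul_one])
  obtain ⟨N, hN⟩ : ∃ N, N = orderOf x * (p * (p - 1)) := ⟨_, rfl⟩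
  have hN0 : 0 < N := by rw [hN]; positivity
  have : NeZero N := ⟨hN0.ne'⟩
  have hdvd : orderOf x ∣ N := ⟨_, hN⟩
  obtain ⟨u, hu⟩ := ZMod.unitsMap_surjective hdvd (ZMod.unitOfCoprime k hcop)
  obtain ⟨m, hm⟩ : ∃ m : ℕ, m = (u : ZMod N).val := ⟨_, rfl⟩
  have hmN : m.Coprime N := by rw [hm]; exact ZMod.val_coe_unit_coprime u
  have hmk : m ≡ k [MOD orderOf x] := by
    rw [← ZMod.natCast_eq_natCast_iff]
    have h1 := congrArg Units.val hu
    rw [ZMod.unitsMap_def, Units.coe_map, ZMod.coe_unitOfCoprime] at h1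
    rw [← h1, hm]
    change _ = ZMod.castHom hdvd (ZMod (orderOf x)) (u : ZMod N)
    rw [ZMod.castHom_apply, ZMod.natCast_val]
  have hxm : x ^ m = y := by
    rw [← hk]
    exact pow_eq_pow_iff_modEq.2 hmk
  have hpN : p ∣ N := by rw [hN]; exact (dvd_mul_right p _).mul_left _
  have hp1N : (p - 1) ∣ N := by rw [hN]; exact (dvd_mul_left _ p).mul_left _
  have hpm : ¬ p ∣ m := by
    intro h
    have := Nat.dvd_gcd h hpN
    rw [hmN] at this
    exact hp.out.one_lt.ne' (Nat.dvd_one.1 this)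
  have hm1 : m.Coprime (p - 1) := hmN.coprime_dvd_right hp1N
  have hcases : m % (p - 1) = 1 % (p - 1) ∨ (m * (N - 1)) % (p - 1) = 1 % (p - 1) := by
    obtain ⟨r, hr⟩ : ∃ r, N = (p - 1) * (r + 1) := by
      obtain ⟨r, hr⟩ := hp1N
      rcases r with _ | r
      · omega
      · exact ⟨r, hr⟩
    have hN1 : N - 1 = (p - 1) * r + (p - 2) := by
      rw [hr, mul_add, mul_one]
      rcases h57 with rfl | rfl <;> omega
    have hN2 : (N - 1) % (p - 1) = p - 2 := by
      rw [hN1, Nat.mul_add_mod]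
      rcases h57 with rfl | rfl <;> rfl
    rw [Nat.mul_mod, hN2]
    clear hN2 hN1 hr
    rcases h57 with rfl | rfl
    · exact mod_four hm1
    · exact mod_six hm1
  rcases hcases with h1 | h1
  · left
    rw [← hxm]
    exact conj_pow x m hpm (pow_eq_of_mod h1) (pow_eq_of_mod h1)
  · right
    have hxN : x⁻¹ ^ N = 1 := by
      rw [inv_pow, orderOf_dvd_iff_pow_eq_one.1 hdvd, inv_one]
    have h2 : x⁻¹ ^ (m * (N - 1)) = y := by
      have h3 : x⁻¹ ^ (m * (N - 1)) * x⁻¹ ^ m = 1 := by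
        rw [← pow_add]
        have : m * (N - 1) + m = N * m := by
          obtain ⟨N', rfl⟩ : ∃ N', N = N' + 1 := ⟨N - 1, by omega⟩
          simp only [Nat.add_sub_cancel]
          ring
        rw [this, pow_mul, hxN, one_pow]
      rw [inv_pow x m, hxm, mul_inv_eq_one] at h3
      exact h3
    rw [← h2]
    refine conj_pow x⁻¹ _ ?_ (pow_eq_of_mod h1) (pow_eq_of_mod h1)
    intro h
    rcases (Nat.Prime.dvd_mul hp.out).1 h with h | h
    · exact hpm h
    · have h3 : p ∣ N - (N - 1) := Nat.dvd_sub hpN h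
      have h4 : N - (N - 1) = 1 := by omega
      rw [h4] at h3
      exact hp.out.one_lt.ne' (Nat.dvd_one.1 h3)

/-! ### Solvability and `O_p` -/

/-- The pair `(μ, λ)`. -/
def q1 : Gp p →* (ZMod p)ˣ × (ZMod p)ˣ where
  toFun x := (x.mu, x.la)
  map_one' := rfl
  map_mul' _ _ := rfl

/-- The subgroup `μ = λ = 1`. -/
abbrev P : Subgroup (Gp p) := (q1 (p := p)).ker

theorem mem_P {x : Gp p} : x ∈ P ↔ x.mu = 1 ∧ x.la = 1 := by
  rw [MonoidHom.mem_ker]
  exact Prod.mk_eq_one

/-- The number `c`. -/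
def q2 : (P (p := p)) →* Multiplicative (ZMod p) where
  toFun x := Multiplicative.ofAdd (x.1.c)
  map_one' := rfl
  map_mul' x y := by
    rw [← ofAdd_add]
    congr 1
    have := (mem_P.1 x.2).1
    change x.1.c + x.1.mu * y.1.c = _
    rw [this, Units.val_one, one_mul]

theorem solvable : Group.IsSolvable (Gp p) := by
  have h1 : Group.IsSolvable (q2 (p := p)).ker := by
    refine Group.isSolvable_of_comm ?_
    rintro ⟨⟨a, ha⟩, ha'⟩ ⟨⟨b, hb⟩, hb'⟩
    have ha1 := mem_P.1 ha
    have hb1 := mem_P.1 hb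
    have ha2 : a.c = 0 := congrArg Multiplicative.toAdd ((MonoidHom.mem_ker).1 ha')
    have hb2 : b.c = 0 := congrArg Multiplicative.toAdd ((MonoidHom.mem_ker).1 hb')
    have : a * b = b * a := by
      ext i
      · simp [mul_comm]
      · simp [ha2, hb2]
      · simp [mul_comm]
      · simp [ha1.1, ha1.2, hb1.1, hb1.2, ha2, hb2, add_comm]
    exact Subtype.ext (Subtype.ext this)
  have h2 : Group.IsSolvable (P (p := p)) :=
    Group.isSolvable_of_ker_le_range (q2 (p := p)).ker.subtype (q2 (p := p))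
      (by rw [Subgroup.range_subtype])
  exact Group.isSolvable_of_ker_le_range (P (p := p)).subtype (q1 (p := p))
      (by rw [Subgroup.range_subtype])

theorem pow_f_zero {x : Gp p} (h : x.mu = 1) (hl : x.la = 1) (hc : x.c = 0) (n : ℕ) (i : ZMod p) :
    (x ^ n).f i = n * x.f i := by
  induction n with
  | zero => simp
  | succ n ih =>
    rw [pow_succ_f, Pi.add_apply, Pi.smul_apply, ih, top_one h, hc, hl]
    simp
    ring

theorem pow_pp {x : Gp p} (hx : x ∈ P (p := p)) : x ^ p ^ 2 = 1 := by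
  obtain ⟨h1, h2⟩ := mem_P.1 hx
  have h3 : (x ^ p).c = 0 := by rw [pow_c_one x h1]; simp
  have h4 : (x ^ p).mu = 1 := by rw [pow_mu, h1, one_pow]
  have h5 : (x ^ p).la = 1 := by rw [pow_la, h2, one_pow]
  rw [pow_two, pow_mul]
  ext i
  · rw [pow_mu, h4, one_pow]; rfl
  · rw [pow_c_one _ h4, h3, mul_zero]; rfl
  · rw [pow_la, h5, one_pow]; rfl
  · rw [pow_f_zero h4 h5 h3]
    simp

theorem P_le : P (p := p) ≤ Op p (Gp p) := by
  refine le_sSup ⟨inferInstance, ?_⟩
  intro x
  refine ⟨2, ?_⟩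
  exact Subtype.ext (pow_pp x.2)

/-- An element of order `p²`. -/
def e (p : ℕ) : Gp p := ⟨1, 1, 1, fun i => if i = 0 then 1 else 0⟩

theorem e_mem : e p ∈ P (p := p) := mem_P.2 ⟨rfl, rfl⟩

theorem order_e : orderOf (e p) = p ^ 2 := by
  refine orderOf_eq_prime_pow (n := 1) ?_ (pow_pp e_mem)
  rw [pow_one]
  intro h
  have h1 : ∀ n : ℕ, n ≤ p → (e p ^ n).f 0 = if n = 0 then 0 else 1 := by
    intro n
    induction n with
    | zero => intro _; simp
    | succ n ih =>
      intro hn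
      rw [pow_succ_f, Pi.add_apply, Pi.smul_apply, ih (by omega), top_one (x := e p) rfl]
      by_cases h0 : n = 0
      · subst h0
        simp [e]
      · have h2 : (n : ZMod p) ≠ 0 := by
          rw [Ne, ZMod.natCast_eq_zero_iff]
          intro h3
          have := Nat.le_of_dvd (Nat.pos_of_ne_zero h0) h3
          omega
        simp [e, h0, h2]
  have h2 := h1 p le_rfl
  rw [h, one_f, if_neg hp.out.ne_zero] at h2
  exact zero_ne_one h2

end Prime

end Gp

/-- For `p = 5` and for `p = 7` there is a finite solvable cut group `G` such that `O_p(G)` contains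
an element of order `p²`. -/
theorem result (p : ℕ) (hp : p = 5 ∨ p = 7) : ∃ (G : Type) (_ : Group G), Finite G ∧
    Group.IsSolvable G ∧ IsCut G ∧ ∃ x ∈ Op p G, orderOf x = p ^ 2 := by
  have : Fact p.Prime := ⟨by rcases hp with rfl | rfl <;> norm_num⟩
  exact ⟨Gp p, inferInstance, inferInstance, Gp.solvable, Gp.isCut hp, Gp.e p,
    Gp.P_le Gp.e_mem, Gp.order_e⟩

end Pool.Agent.Results.MP_725138_al.ExponentOp
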